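import Pool.Agent.Helper62.LH.StA

/-!
# Project LH, module KEY: the main estimate
-/

set_option autoImplicit false
set_option maxSynthPendingDepth 3

open Set Filter Topology MeasureTheory
open scoped ContDiff ENNReal

noncomputable section

namespace Pool.Agent.Helper24.LH

open Helper62.LH

variable {n : ℕ} {g : E n → Bl n}

private lemma nB_cont (hUt : StUt) (hg : IsMet g) {B : E n → Bl n} (hB : Continuous B) :
    Continuous (fun x => nB g x (fun u v => B x u v)) := (hUt n g hg).2.1 B B hB hB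

private lemma cB_cont {Γ : E n → Bm n} (hΓ : Continuous Γ) {θ : E n → Dl n}
    (hθ : ContDiff ℝ ∞ θ) : Continuous (fun x => cB Γ θ x) := by
  have h1 : Continuous (fun x => fderiv ℝ θ x) := hθ.continuous_fderiv (by simp)
  have h2 : Continuous (fun x => ContinuousLinearMap.compL ℝ (E n) (E n) ℝ (θ x)) :=
    (ContinuousLinearMap.compL ℝ (E n) (E n) ℝ).continuous.comp hθ.continuous
  have h3 : Continuous (fun x => (ContinuousLinearMap.compL ℝ (E n) (E n) ℝ (θ x)).comp (Γ x)) :=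
    h2.clm_comp hΓ
  exact h1.sub h3

private lemma cB_apply (Γ : E n → Bm n) (θ : E n → Dl n) (x u v : E n) :
    cB Γ θ x u v = cf Γ θ x u v := by
  unfold cB cf
  rw [_root_.sub_apply, _root_.sub_apply, ContinuousLinearMap.comp_apply,
    ContinuousLinearMap.compL_apply, ContinuousLinearMap.comp_apply]

private lemma N2_eq (Γ : E n → Bm n) (θ : E n → Dl n) (x : E n) :
    N2 g Γ θ x = nB g x (fun u v => cB Γ θ x u v) := by
  have h : cf Γ θ x = fun u v => cB Γ θ x u v := by
    funext u v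
    exact (cB_apply Γ θ x u v).symm
  unfold N2
  rw [h]

private lemma N2_cont (hUt : StUt) (hg : IsMet g) {Γ : E n → Bm n} (hΓ : Continuous Γ)
    {θ : E n → Dl n} (hθ : ContDiff ℝ ∞ θ) : Continuous (fun x => N2 g Γ θ x) := by
  simp only [N2_eq]
  exact nB_cont hUt hg (cB_cont hΓ hθ)

private lemma N2_nonneg (hInb : StInb) (hg : IsMet g) (Γ : E n → Bm n) (θ : E n → Dl n) (x : E n) :
    0 ≤ N2 g Γ θ x := by
  rw [N2_eq]
  exact (hInb n g hg x).1 (cB Γ θ x)

private lemma ip_neg (x : E n) (a : Dl n) : ip g x (-a) (-a) = ip g x a a := by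
  unfold ip
  congr 1
  funext u v
  have h1 : (-a) u = -(a u) := rfl
  have h2 : (-a) v = -(a v) := rfl
  rw [h1, h2, neg_mul_neg]

private lemma ip_comb (hIna : StIna) (hInb : StInb) (hn : 1 ≤ n) (hg : IsMet g) (x : E n) {m : ℕ}
    (c : Fin m → ℝ) (hc : ∑ i, c i ^ 2 = 1) (a : Fin m → Dl n) :
    ip g x (∑ i, c i • a i) (∑ i, c i • a i) ≤ ∑ i, ip g x (a i) (a i) := by
  obtain ⟨b, hb⟩ : ∃ b : Dl n, b ≠ 0 := by
    refine ⟨EuclideanSpace.proj (⟨0, hn⟩ : Fin n), fun h => ?_⟩
    have := congrArg (fun L : Dl n => L (ee ⟨0, hn⟩)) h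
    simp [ee] at this
  have hb0 : 0 < ip g x b b :=
    lt_of_le_of_ne ((hIna n g hg x).1 b) fun h => hb ((hIna n g hg x).2.2.1 b h.symm)
  have h5 := (hInb n g hg x).2.2.2.2.1
  have h6 := (hInb n g hg x).2.2.2.2.2.1 m c (fun i => (a i).smulRight b) hc
  have e1 : (fun u v => ∑ i, c i * ((a i).smulRight b) u v) =
      fun u v => (∑ i, c i • a i) u * b v := by
    funext u v
    have e0 : (∑ i, c i • a i) u = ∑ i, c i * a i u := by
      rw [_root_.sum_apply]
      rfl
    rw [e0, Finset.sum_mul]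
    refine Finset.sum_congr rfl fun i _ => ?_
    have e3 : ((a i).smulRight b) u v = a i u * b v := rfl
    rw [e3]
    ring
  have e2 : ∀ i, nB g x (fun u v => ((a i).smulRight b) u v) = ip g x (a i) (a i) * ip g x b b := by
    intro i
    rw [← h5]
    congr 1
  rw [e1, h5] at h6
  simp only [e2] at h6
  rw [← Finset.sum_mul] at h6
  exact le_of_mul_le_mul_right h6 hb0

private lemma conv (hv : Continuous (vol g)) (hv0 : ∀ x, 0 < vol g x)
    {F : E n → ℝ} (hF : Continuous F) (hF0 : ∀ x, 0 ≤ F x) {D K : Set (E n)}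
    (hD : MeasurableSet D) (hK : IsCompact K) (hDK : D ⊆ K) :
    ∫⁻ y in D, ENNReal.ofReal (F y) ∂(mg g) = ENNReal.ofReal (∫ y in D, F y * vol g y) := by
  unfold mg
  rw [setLIntegral_withDensity_eq_setLIntegral_mul volume
    hv.measurable.ennreal_ofReal hF.measurable.ennreal_ofReal hD]
  rw [ofReal_integral_eq_lintegral_ofReal]
  · refine lintegral_congr fun y => ?_
    rw [Pi.mul_apply, ← ENNReal.ofReal_mul (hv0 y).le, mul_comm]
  · exact ((hF.mul hv).continuousOn.integrableOn_compact hK).mono_set hDK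
  · exact Filter.Eventually.of_forall fun y => mul_nonneg (hF0 y) (hv0 y).le

private lemma b_cont (hMet : StMet) (hDlc : StDlc) (hg : IsMet g) {b : E n → ℝ}
    (hb : ∀ x y, |b x - b y| ≤ dg g x y) : Continuous b := by
  have hd := (hDlc n g hg).2.2
  have h0 := (hMet n g hg).2.2.2.1
  rw [continuous_iff_continuousAt]
  intro x
  rw [ContinuousAt, tendsto_iff_norm_sub_tendsto_zero]
  have h1 : Tendsto (fun y => dg g y x) (𝓝 x) (𝓝 0) := by
    have h2 : Continuous (fun y => dg g y x) := hd.comp (continuous_id.prodMk continuous_const)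
    have h3 := h2.tendsto x
    simpa only [h0 x] using h3
  exact squeeze_zero (fun _ => norm_nonneg _) (fun y => by rw [Real.norm_eq_abs]; exact hb y x) h1

private lemma tail_lim {b Q : E n → ℝ} (hb : Continuous b) (hQ : Integrable Q) :
    Tendsto (fun m : ℝ => ∫ x in {x | m ≤ b x}, Q x) atTop (𝓝 0) := by
  have h := tendsto_setIntegral_of_antitone (μ := (volume : Measure (E n))) (f := Q)
    (s := fun m : ℝ => {x | m ≤ b x})
    (fun m => (isClosed_le continuous_const hb).measurableSet)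
    (fun m m' hm x hx => le_trans hm hx) ⟨0, hQ.integrableOn⟩
  have h2 : (⋂ m : ℝ, {x : E n | m ≤ b x}) = ∅ := by
    ext x
    simp only [mem_iInter, mem_empty_iff_false, iff_false, not_forall]
    obtain ⟨m, hm⟩ := exists_gt (b x)
    exact ⟨m, fun h => absurd (show m ≤ b x from h) (not_le.2 hm)⟩
  rwa [h2, setIntegral_empty] at h

private lemma mg_pos_fin (hUt : StUt) (hg : IsMet g) {D K : Set (E n)} (hDo : IsOpen D)
    (hDn : D.Nonempty) (hK : IsCompact K) (hDK : D ⊆ K) : mg g D ≠ 0 ∧ mg g D ≠ ⊤ := by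
  obtain ⟨c, C, hc, hC, h⟩ := (hUt n g hg).2.2.2.2.1 K hK
  have e : mg g D = ∫⁻ x in D, ENNReal.ofReal (vol g x) := by
    unfold mg
    rw [withDensity_apply _ hDo.measurableSet]
  constructor
  · have h1 : ENNReal.ofReal c * volume D ≤ mg g D := by
      rw [e, ← setLIntegral_const]
      exact setLIntegral_mono' hDo.measurableSet fun x hx =>
        ENNReal.ofReal_le_ofReal (h x (hDK hx)).1
    have h2 : 0 < ENNReal.ofReal c * volume D :=
      ENNReal.mul_pos (ENNReal.ofReal_pos.2 hc).ne' (hDo.measure_pos volume hDn).ne'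
    exact (lt_of_lt_of_le h2 h1).ne'
  · have h1 : mg g D ≤ ENNReal.ofReal C * volume D := by
      rw [e, ← setLIntegral_const]
      exact setLIntegral_mono' hDo.measurableSet fun x hx =>
        ENNReal.ofReal_le_ofReal (h x (hDK hx)).2.1
    have h2 : ENNReal.ofReal C * volume D < ⊤ :=
      ENNReal.mul_lt_top ENNReal.ofReal_lt_top
        (lt_of_le_of_lt (measure_mono hDK) hK.measure_lt_top)
    exact (lt_of_le_of_lt h1 h2).ne

private lemma dd_comb {m : ℕ} (c : Fin m → ℝ) (θ : Fin m → E n → Dl n)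
    (hθ : ∀ i, ContDiff ℝ ∞ (θ i)) (x u v : E n) :
    dd (fun y => ∑ i, c i • θ i y) x u v = ∑ i, c i * dd (θ i) x u v := by
  have h1 : fderiv ℝ (fun y => ∑ i, c i • θ i y) x = ∑ i, c i • fderiv ℝ (θ i) x := by
    have h := fderiv_fun_sum (𝕜 := ℝ) (u := Finset.univ) (A := fun i y => c i • θ i y) (x := x)
      (fun i _ => ((hθ i).differentiable (by simp) x).const_smul (c i))
    rw [h]
    refine Finset.sum_congr rfl fun i _ => ?_
    exact fderiv_fun_const_smul ((hθ i).differentiable (by simp) x) (c i)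
  have h2 : ∀ u v : E n, (∑ i, c i • fderiv ℝ (θ i) x) u v = ∑ i, c i * fderiv ℝ (θ i) x u v := by
    intro u v
    rw [_root_.sum_apply, _root_.sum_apply]
    rfl
  unfold dd
  rw [h1, h2, h2, ← Finset.sum_sub_distrib]
  exact Finset.sum_congr rfl fun i _ => by ring

private lemma ip_cont (hUt : StUt) (hg : IsMet g) {θ : E n → Dl n} (hθ : Continuous θ) :
    Continuous (fun x => ip g x (θ x) (θ x)) := (hUt n g hg).1 θ θ hθ hθ

private lemma comb_smooth {m : ℕ} (c : Fin m → ℝ) (θ : Fin m → E n → Dl n)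
    (hθ : ∀ i, ContDiff ℝ ∞ (θ i)) : ContDiff ℝ ∞ (fun y => ∑ i, c i • θ i y) :=
  ContDiff.sum fun i _ => (hθ i).const_smul (c i)

private lemma zeta_bound (hUt : StUt) (hIna : StIna) (hInb : StInb) (hn : 1 ≤ n) (hg : IsMet g)
    {m : ℕ} (c : Fin m → ℝ) (hc : ∑ i, c i ^ 2 = 1) (θ' θ'' : Fin m → E n → Dl n)
    (h1 : ∀ i, ContDiff ℝ ∞ (θ' i)) (h2 : ∀ i, ContDiff ℝ ∞ (θ'' i)) {D K : Set (E n)}
    (hD : MeasurableSet D) (hK : IsCompact K) (hDK : D ⊆ K) :
    ∫ x in D, ip g x (∑ i, c i • θ'' i x) (∑ i, c i • θ'' i x) * vol g x ≤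
      2 * (∫ x in D, ip g x (∑ i, c i • θ' i x) (∑ i, c i • θ' i x) * vol g x) +
      2 * ∑ i, ∫ x in D, ip g x (θ' i x - θ'' i x) (θ' i x - θ'' i x) * vol g x := by
  have hv := (hUt n g hg).2.2.1
  have hv0 := (hUt n g hg).2.2.2.1
  have int : ∀ F : E n → ℝ, Continuous F → IntegrableOn (fun x => F x * vol g x) D := fun F hF =>
    ((hF.mul hv).continuousOn.integrableOn_compact hK).mono_set hDK
  have c1 := ip_cont hUt hg (comb_smooth c θ' h1).continuous
  have c2 := ip_cont hUt hg (comb_smooth c θ'' h2).continuous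
  have c3 : ∀ i, Continuous (fun x => ip g x (θ' i x - θ'' i x) (θ' i x - θ'' i x)) := fun i =>
    ip_cont hUt hg ((h1 i).continuous.sub (h2 i).continuous)
  have e : 2 * (∫ x in D, ip g x (∑ i, c i • θ' i x) (∑ i, c i • θ' i x) * vol g x) +
      2 * ∑ i, ∫ x in D, ip g x (θ' i x - θ'' i x) (θ' i x - θ'' i x) * vol g x =
      ∫ x in D, (2 * (ip g x (∑ i, c i • θ' i x) (∑ i, c i • θ' i x) * vol g x) +
        2 * ∑ i, ip g x (θ' i x - θ'' i x) (θ' i x - θ'' i x) * vol g x) := by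
    rw [integral_add, integral_const_mul, integral_const_mul, integral_finsetSum]
    · exact fun i _ => int _ (c3 i)
    · exact (int _ c1).const_mul 2
    · exact (integrable_finsetSum _ fun i _ => int _ (c3 i)).const_mul 2
  rw [e]
  refine setIntegral_mono_on (int _ c2) ?_ hD fun x _ => ?_
  · exact ((int _ c1).const_mul 2).add
      ((integrable_finsetSum _ fun i _ => int _ (c3 i)).const_mul 2)
  have e2 : ∑ i, c i • θ'' i x = (∑ i, c i • θ' i x) + ∑ i, c i • (θ'' i x - θ' i x) := by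
    rw [← Finset.sum_add_distrib]
    refine Finset.sum_congr rfl fun i _ => ?_
    rw [smul_sub]
    abel
  have h6 := (hIna n g hg x).2.2.2.2.2.1 (∑ i, c i • θ' i x) (∑ i, c i • (θ'' i x - θ' i x)) 1
    one_pos
  rw [← e2] at h6
  have h7 := ip_comb hIna hInb hn hg x c hc (fun i => θ'' i x - θ' i x)
  have e3 : ∀ i, ip g x (θ'' i x - θ' i x) (θ'' i x - θ' i x) =
      ip g x (θ' i x - θ'' i x) (θ' i x - θ'' i x) := by
    intro i
    rw [← ip_neg, neg_sub]
  simp only [e3] at h7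
  have h8 := (hv0 x).le
  have h9 : ip g x (∑ i, c i • θ'' i x) (∑ i, c i • θ'' i x) ≤
      2 * ip g x (∑ i, c i • θ' i x) (∑ i, c i • θ' i x) +
      2 * ∑ i, ip g x (θ' i x - θ'' i x) (θ' i x - θ'' i x) := by
    linarith
  calc ip g x (∑ i, c i • θ'' i x) (∑ i, c i • θ'' i x) * vol g x
      ≤ (2 * ip g x (∑ i, c i • θ' i x) (∑ i, c i • θ' i x) +
        2 * ∑ i, ip g x (θ' i x - θ'' i x) (θ' i x - θ'' i x)) * vol g x :=
        mul_le_mul_of_nonneg_right h9 h8
    _ = _ := by rw [← Finset.sum_mul]; ring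

/-- pointwise estimate of the pairing -/
private lemma pair_pt (hIna : StIna) (hInb : StInb) (hg : IsMet g) (x : E n) (B : Bl n)
    (a d : Dl n) (q C R Λ : ℝ) (hC : 0 < C) (hR : 0 < R) (hΛ : 0 < Λ)
    (hq : nB g x (fun u v => B u v) ≤ q) (hd : ∀ v, |d v| ≤ C / R * nr g x v) :
    |iB g x (fun u v => B u v) (fun u v => a u * d v)| ≤
      C * Λ / 2 * q + C / (2 * R ^ 2 * Λ) * ip g x a a := by
  have h7 := (hInb n g hg x).2.2.2.2.2.2.1 B a d
  have h8 := (hIna n g hg x).2.2.2.2.2.2.1 d (C / R) (by positivity) hd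
  have hn := (hInb n g hg x).1 B
  have ha := (hIna n g hg x).1 a
  have h9 : √(ip g x d d) ≤ C / R := by
    rw [← Real.sqrt_sq (show 0 ≤ C / R by positivity)]
    exact Real.sqrt_le_sqrt h8
  set N := nB g x (fun u v => B u v) with hN
  set A := ip g x a a with hA
  have h10 : √N * √A ≤ (R * Λ * N + A / (R * Λ)) / 2 := by
    have hs1 := Real.sq_sqrt hn
    have hs2 := Real.sq_sqrt ha
    have hRΛ : 0 < R * Λ := mul_pos hR hΛ
    have h11 : 0 ≤ (R * Λ * √N - √A) ^ 2 / (R * Λ) := by positivity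
    have h12 : (R * Λ * √N - √A) ^ 2 / (R * Λ) = R * Λ * N - 2 * (√N * √A) + A / (R * Λ) := by
      have h16 : (R * Λ * √N - √A) ^ 2 =
          (R * Λ) ^ 2 * √N ^ 2 - 2 * (R * Λ) * (√N * √A) + √A ^ 2 := by ring
      rw [h16, hs1, hs2]
      field_simp
    rw [h12] at h11
    linarith
  have h13 : √N * (√A * √(ip g x d d)) ≤ (R * Λ * N + A / (R * Λ)) / 2 * (C / R) := by
    rw [← mul_assoc]
    exact mul_le_mul h10 h9 (Real.sqrt_nonneg _) (le_trans (by positivity) h10)
  have h14 : (R * Λ * N + A / (R * Λ)) / 2 * (C / R) =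
      C * Λ / 2 * N + C / (2 * R ^ 2 * Λ) * A := by
    field_simp
  rw [h14] at h13
  have h15 : C * Λ / 2 * N ≤ C * Λ / 2 * q := mul_le_mul_of_nonneg_left hq (by positivity)
  linarith

theorem hKey (hChr : StChr) (hUt : StUt) (hMet : StMet) (hDlc : StDlc) (hIna : StIna)
    (hInb : StInb) (hBus : StBus) (hCvd : StCvd) (hRk : StRk) (hCut : StCut) (hPai : StPai)
    (hHl : StHl) (hThe : StThe) : StKey := by
  intro n g Γ hn hg hΓ hcp hs P hP K hK δ hδ
  obtain ⟨p, b, κ₀, r0, hB⟩ := hBus n g Γ hn hg hΓ hcp hs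
  have hbc : Continuous b := b_cont hMet hDlc hg hB.lip
  have hΓc : Continuous Γ := (hChr n g Γ hg hΓ).1.continuous
  have hv : Continuous (vol g) := (hUt n g hg).2.2.1
  have hv0 : ∀ x, 0 < vol g x := (hUt n g hg).2.2.2.1
  have hκ₀ := hB.kpos
  obtain ⟨C, hC, hCR⟩ := (hCut n g Γ hg hΓ p b κ₀ r0 hB).2
  -- the total density
  set Q : E n → ℝ := fun x => (∑ i, nB g x (fun u v => P i x u v)) * vol g x with hQdef
  have hQi : Integrable Q := by
    have h : Q = fun x => ∑ i, nB g x (fun u v => P i x u v) * vol g x := by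
      funext x
      exact Finset.sum_mul _ _ _
    rw [h]
    exact integrable_finsetSum _ fun i _ => (hP i).int
  have hQ0 : ∀ x, 0 ≤ Q x := fun x =>
    mul_nonneg (Finset.sum_nonneg fun i _ => (hInb n g hg x).1 (P i x)) (hv0 x).le
  set J : Fin (n + 1) → ℝ := fun i => ∫ x, nB g x (fun u v => P i x u v) / 2 * vol g x with hJ
  have hJ0 : ∀ i, 0 ≤ J i := fun i => integral_nonneg fun x =>
    mul_nonneg (div_nonneg ((hInb n g hg x).1 (P i x)) zero_le_two) (hv0 x).le
  set A : ℝ := ∑ i, (J i + 2) with hA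
  have hA0 : 0 ≤ A := Finset.sum_nonneg fun i _ => by linarith [hJ0 i]
  set C' : ℝ := 2 ^ (n + 3) * A / κ₀ ^ 2 + 2 with hC'
  have hC'0 : 0 < C' := by positivity
  set Λ : ℝ := 2 * C * C' / δ with hΛdef
  have hΛ : 0 < Λ := by positivity
  -- choice of the radius
  have hev : ∀ᶠ m : ℝ in atTop, (∫ x in {x | m ≤ b x}, Q x) ≤ δ / (2 * C * Λ) :=
    (tail_lim hbc hQi).eventually (ge_mem_nhds (by positivity))
  obtain ⟨M, hM⟩ : ∃ M, ∀ x ∈ K, b x ≤ M := by
    obtain ⟨M, hM⟩ := (hK.image hbc).bddAbove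
    exact ⟨M, fun x hx => hM ⟨x, hx, rfl⟩⟩
  obtain ⟨m, hmt, hm5, hmr, hmp, hmM⟩ : ∃ m : ℝ, (∫ x in {x | m ≤ b x}, Q x) ≤ δ / (2 * C * Λ) ∧
      5 ≤ m ∧ κ₀ * r0 ≤ m ∧ b p ≤ m ∧ M ≤ m :=
    (hev.and ((eventually_ge_atTop 5).and ((eventually_ge_atTop (κ₀ * r0)).and
      ((eventually_ge_atTop (b p)).and (eventually_ge_atTop M))))).exists
  set R : ℝ := 2 * m with hR
  have hR9 : 9 ≤ R := by linarith
  have hR0 : 0 < R := by linarith
  set D : Set (E n) := {x | b x < R} with hDdef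
  have hDo : IsOpen D := isOpen_lt hbc continuous_const
  have hDm : MeasurableSet D := hDo.measurableSet
  have hK' : IsCompact {x | b x ≤ R} := hB.prop R
  have hDK : D ⊆ {x | b x ≤ R} := fun x hx => by
    have h : b x < R := hx
    exact h.le
  have hpD : p ∈ D := show b p < R by linarith
  obtain ⟨hD0, hDt⟩ := mg_pos_fin hUt hg hDo ⟨p, hpD⟩ hK' hDK
  obtain ⟨hcv1, hcv2⟩ := hCvd n g Γ hg hΓ hcp p b κ₀ r0 hB R
  have hcv3 := hcv2 (by linarith)
  -- the primitives
  have hth := fun i => hThe n g Γ hg hΓ hs p b κ₀ r0 hB (P i) (hP i) R (1 / (n + 1)) (by positivity)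
  choose θ' θ'' hs' hs'' hdd hth1 hth2 using hth
  obtain ⟨c, hc, hrk⟩ := hRk n g Γ hg hΓ hcp hs D hDm hD0 hDt
    (fun x hx y hy t ht z hz => hcv1 x y z t hx hy ht hz) (2 * R / κ₀) (by positivity)
    (fun x hx y hy => hcv3 x y hx hy) θ' hs'
  refine ⟨c, hc, ?_⟩
  -- the estimate of the forms
  have hN2c : ∀ i, Continuous (fun x => N2 g Γ (θ' i) x) := fun i => N2_cont hUt hg hΓc (hs' i)
  have hN20 : ∀ i x, 0 ≤ N2 g Γ (θ' i) x := fun i x => N2_nonneg hInb hg Γ (θ' i) x
  have iK : ∀ F : E n → ℝ, Continuous F → IntegrableOn (fun x => F x * vol g x) {x | b x ≤ R} :=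
    fun F hF => (hF.mul hv).continuousOn.integrableOn_compact hK'
  have iD : ∀ F : E n → ℝ, Continuous F → IntegrableOn (fun x => F x * vol g x) D :=
    fun F hF => (iK F hF).mono_set hDK
  have mD : ∀ F : E n → ℝ, Continuous F → (∀ x, 0 ≤ F x) →
      ∫ x in D, F x * vol g x ≤ ∫ x in {x | b x ≤ R}, F x * vol g x := fun F hF hF0 =>
    setIntegral_mono_set (iK F hF)
      (Filter.Eventually.of_forall fun x => mul_nonneg (hF0 x) (hv0 x).le)
      (Filter.Eventually.of_forall fun x hx => hDK hx)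
  have hκ1 : (1 : ℝ) / (n + 1) ≤ 1 := by
    rw [div_le_one (by positivity)]
    linarith [show (0 : ℝ) ≤ n from Nat.cast_nonneg n]
  have hN2s : ∫ x in D, (∑ i, N2 g Γ (θ' i) x) * vol g x ≤ A := by
    have e : ∫ x in D, (∑ i, N2 g Γ (θ' i) x) * vol g x =
        ∑ i, ∫ x in D, N2 g Γ (θ' i) x * vol g x := by
      rw [← integral_finsetSum _ fun i _ => iD _ (hN2c i)]
      simp only [Finset.sum_mul]
    rw [e, hA]
    refine Finset.sum_le_sum fun i _ => ?_
    have h1 := mD _ (hN2c i) (hN20 i)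
    have h2 := hth2 i
    have h3 : J i = ∫ x, nB g x (fun u v => P i x u v) / 2 * vol g x := rfl
    linarith
  have hsc : Continuous (fun x => ip g x (∑ i, c i • θ' i x) (∑ i, c i • θ' i x)) :=
    ip_cont hUt hg (comb_smooth c θ' hs').continuous
  have hI' : ∫ x in D, ip g x (∑ i, c i • θ' i x) (∑ i, c i • θ' i x) * vol g x ≤
      2 ^ n * (2 * R / κ₀) ^ 2 * A := by
    have hsum : Continuous (fun x => ∑ i, N2 g Γ (θ' i) x) :=
      continuous_finsetSum _ fun i _ => hN2c i
    rw [conv hv hv0 hsc (fun x => (hIna n g hg x).1 _) hDm hK' hDK,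
      conv hv hv0 hsum (fun x => Finset.sum_nonneg fun i _ => hN20 i x) hDm hK' hDK,
      ← ENNReal.ofReal_mul (by positivity)] at hrk
    have h0 : 0 ≤ ∫ x in D, (∑ i, N2 g Γ (θ' i) x) * vol g x :=
      setIntegral_nonneg hDm fun x _ =>
        mul_nonneg (Finset.sum_nonneg fun i _ => hN20 i x) (hv0 x).le
    have h1 := (ENNReal.ofReal_le_ofReal_iff (by positivity)).1 hrk
    exact h1.trans (mul_le_mul_of_nonneg_left hN2s (by positivity))
  have hdf : ∑ i, ∫ x in D, ip g x (θ' i x - θ'' i x) (θ' i x - θ'' i x) * vol g x ≤ 1 := by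
    have h1 : ∀ i ∈ Finset.univ,
        ∫ x in D, ip g x (θ' i x - θ'' i x) (θ' i x - θ'' i x) * vol g x ≤ 1 / ((n : ℝ) + 1) :=
      fun i _ => (mD _ (ip_cont hUt hg ((hs' i).continuous.sub (hs'' i).continuous))
        (fun x => (hIna n g hg x).1 _)).trans (hth1 i)
    refine (Finset.sum_le_sum h1).trans ?_
    rw [Finset.sum_const, Finset.card_univ, Fintype.card_fin, nsmul_eq_mul]
    push_cast
    rw [mul_one_div_cancel (by positivity)]
  set ζ : E n → Dl n := fun x => ∑ i, c i • θ'' i x with hζ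
  have hζs : ContDiff ℝ ∞ ζ := comb_smooth c θ'' hs''
  have hζc : Continuous (fun x => ip g x (ζ x) (ζ x)) := ip_cont hUt hg hζs.continuous
  have hζb : ∫ x in D, ip g x (ζ x) (ζ x) * vol g x ≤ C' * R ^ 2 := by
    have h1 := zeta_bound hUt hIna hInb hn hg c hc θ' θ'' hs' hs'' hDm hK' hDK
    have h2 : 2 * (2 ^ n * (2 * R / κ₀) ^ 2 * A) + 2 * 1 ≤ C' * R ^ 2 := by
      have h3 : 2 * (2 ^ n * (2 * R / κ₀) ^ 2 * A) = 2 ^ (n + 3) * A / κ₀ ^ 2 * R ^ 2 := by
        rw [pow_add]
        field_simp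
      rw [h3, hC']
      nlinarith
    linarith
  -- the harmonic combination
  set Pc : E n → Bl n := fun x => ∑ i, c i • P i x with hPc
  have hPcH : H2 g Pc := hHl n g Γ hg hΓ (n + 1) c P hP
  have hPce : ∀ x u v, Pc x u v = ∑ i, c i * P i x u v := by
    intro x u v
    show (∑ i, c i • P i x) u v = _
    rw [_root_.sum_apply, _root_.sum_apply]
    rfl
  have hdζ : ∀ x u v, dd ζ x u v = Pc x u v := by
    intro x u v
    rw [hPce, hζ, dd_comb c θ'' hs'']
    exact Finset.sum_congr rfl fun i _ => by rw [hdd]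
  have hPcq : ∀ x, nB g x (fun u v => Pc x u v) ≤ ∑ i, nB g x (fun u v => P i x u v) := by
    intro x
    have h := (hInb n g hg x).2.2.2.2.2.1 (n + 1) c (fun i => P i x) hc
    simp only [hPce]
    exact h
  obtain ⟨χ, hχ, hχ01, hχ1, hχ2, hχ3⟩ := hCR R hR9
  have hpai := hPai n g Γ hg hΓ Pc hPcH ζ hζs hdζ χ hχ
  have hRm : R / 2 = m := by rw [hR]; ring
  -- the estimate of the pairing
  set G : E n → ℝ := fun x => C * Λ / 2 * ({x | m ≤ b x} : Set (E n)).indicator Q x +
    C / (2 * R ^ 2 * Λ) * D.indicator (fun x => ip g x (ζ x) (ζ x) * vol g x) x with hG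
  have hmc : MeasurableSet {x | m ≤ b x} := (isClosed_le continuous_const hbc).measurableSet
  have i1 : Integrable (({x | m ≤ b x} : Set (E n)).indicator Q) := hQi.indicator hmc
  have i2 : Integrable (D.indicator (fun x => ip g x (ζ x) (ζ x) * vol g x)) :=
    (integrable_indicator_iff hDm).2 (iD _ hζc)
  have hGi : Integrable G := (i1.const_mul _).add (i2.const_mul _)
  have hGe : ∫ x, G x = C * Λ / 2 * (∫ x in {x | m ≤ b x}, Q x) +
      C / (2 * R ^ 2 * Λ) * ∫ x in D, ip g x (ζ x) (ζ x) * vol g x := by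
    rw [hG, integral_add (i1.const_mul _) (i2.const_mul _), integral_const_mul,
      integral_const_mul, integral_indicator hmc, integral_indicator hDm]
  have hpt : ∀ x, ‖iB g x (fun u v => Pc x u v) (fun u v => ζ x u * fderiv ℝ χ x v) * vol g x‖ ≤
      G x := by
    intro x
    have hz1 : 0 ≤ C * Λ / 2 * ({x | m ≤ b x} : Set (E n)).indicator Q x :=
      mul_nonneg (by positivity) (indicator_nonneg (fun x _ => hQ0 x) x)
    have hz2 : 0 ≤ C / (2 * R ^ 2 * Λ) *
        D.indicator (fun x => ip g x (ζ x) (ζ x) * vol g x) x :=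
      mul_nonneg (by positivity) (indicator_nonneg
        (fun x _ => mul_nonneg ((hIna n g hg x).1 _) (hv0 x).le) x)
    have hzero : fderiv ℝ χ x = 0 →
        ‖iB g x (fun u v => Pc x u v) (fun u v => ζ x u * fderiv ℝ χ x v) * vol g x‖ ≤ G x := by
      intro h
      have h1 : iB g x (fun u v => Pc x u v) (fun u v => ζ x u * fderiv ℝ χ x v) = 0 := by
        rw [h]
        unfold iB trg
        simp
      rw [h1, zero_mul, norm_zero]
      exact add_nonneg hz1 hz2
    rcases le_or_gt (b x) (R / 2) with h1 | h1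
    · exact hzero (hχ1 x h1).2
    rcases le_or_gt R (b x) with h2 | h2
    · exact hzero (hχ2 x h2).2
    have m1 : x ∈ ({x | m ≤ b x} : Set (E n)) := show m ≤ b x by linarith
    have m2 : x ∈ D := h2
    have h3 := pair_pt hIna hInb hg x (Pc x) (ζ x) (fderiv ℝ χ x) _ C R Λ hC hR0 hΛ (hPcq x)
      (hχ3 x)
    rw [norm_mul, Real.norm_eq_abs, Real.norm_eq_abs, abs_of_pos (hv0 x)]
    show _ ≤ C * Λ / 2 * ({x | m ≤ b x} : Set (E n)).indicator Q x +
      C / (2 * R ^ 2 * Λ) * D.indicator (fun x => ip g x (ζ x) (ζ x) * vol g x) x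
    rw [indicator_of_mem m1, indicator_of_mem m2]
    refine (mul_le_mul_of_nonneg_right h3 (hv0 x).le).trans (le_of_eq ?_)
    show _ = C * Λ / 2 * ((∑ i, nB g x (fun u v => P i x u v)) * vol g x) +
      C / (2 * R ^ 2 * Λ) * (ip g x (ζ x) (ζ x) * vol g x)
    ring
  have hmain : ∫ x, χ x * (nB g x (fun u v => Pc x u v) / 2) * vol g x ≤
      C * Λ / 2 * (∫ x in {x | m ≤ b x}, Q x) +
      C / (2 * R ^ 2 * Λ) * ∫ x in D, ip g x (ζ x) (ζ x) * vol g x := by
    rw [hpai, ← hGe]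
    exact (le_abs_self _).trans (norm_integral_le_of_norm_le hGi
      (Filter.Eventually.of_forall hpt))
  -- conclusion
  have hnBc : Continuous (fun x => nB g x (fun u v => Pc x u v)) :=
    nB_cont hUt hg hPcH.smooth.continuous
  have hfin : ∫ x in K, nB g x (fun u v => Pc x u v) * vol g x ≤
      2 * ∫ x, χ x * (nB g x (fun u v => Pc x u v) / 2) * vol g x := by
    rw [← integral_const_mul, ← integral_indicator hK.measurableSet]
    refine integral_mono ?_ ?_ fun x => ?_
    · exact (integrable_indicator_iff hK.measurableSet).2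
        ((hnBc.mul hv).continuousOn.integrableOn_compact hK)
    · refine Integrable.const_mul ?_ 2
      refine Continuous.integrable_of_hasCompactSupport
        ((hχ.1.continuous.mul (hnBc.div_const 2)).mul hv) ?_
      exact (hχ.2.mul_right).mul_right
    · by_cases hx : x ∈ K
      · have h1 : b x ≤ R / 2 := by linarith [hM x hx]
        rw [indicator_of_mem hx]
        show nB g x (fun u v => Pc x u v) * vol g x ≤
          2 * (χ x * (nB g x (fun u v => Pc x u v) / 2) * vol g x)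
        rw [(hχ1 x h1).1]
        exact le_of_eq (by ring)
      · rw [indicator_of_notMem hx]
        have h1 := (hInb n g hg x).1 (Pc x)
        have h2 := (hχ01 x).1
        have h3 := (hv0 x).le
        positivity
  have hfin2 : ∫ x in K, nB g x (fun u v => ∑ i, c i * P i x u v) * vol g x =
      ∫ x in K, nB g x (fun u v => Pc x u v) * vol g x := by
    simp only [hPce]
  rw [hfin2]
  have h1 : C * Λ / 2 * (∫ x in {x | m ≤ b x}, Q x) ≤ δ / 4 := by
    calc C * Λ / 2 * (∫ x in {x | m ≤ b x}, Q x) ≤ C * Λ / 2 * (δ / (2 * C * Λ)) :=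
          mul_le_mul_of_nonneg_left hmt (by positivity)
      _ = δ / 4 := by field_simp; norm_num
  have h2 : C / (2 * R ^ 2 * Λ) * (∫ x in D, ip g x (ζ x) (ζ x) * vol g x) ≤ δ / 4 := by
    calc C / (2 * R ^ 2 * Λ) * (∫ x in D, ip g x (ζ x) (ζ x) * vol g x)
        ≤ C / (2 * R ^ 2 * Λ) * (C' * R ^ 2) := mul_le_mul_of_nonneg_left hζb (by positivity)
      _ = δ / 4 := by
        rw [hΛdef]
        field_simp
        norm_num
  linarith

end Pool.Agent.Helper24.LH
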